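import Mathlib
import Pool.Agent.Helper278.RGStmt
import Pool.Agent.Y671.HU.Gen

/-!
# Rigid II₁ factors: all homomorphisms into the ultrapower are unital and irreducible

For every set `X` there is a II₁ factor `M`, with a family of orthogonal unitaries indexed by `X`
(so there are such factors of arbitrarily large density character), such that for every
nonprincipal ultrafilter `U` on `ℕ`: every nonzero star homomorphism from `M` to the tracial
ultrapower `M^U` is unital, no projection of `M^U` other than `0` and `1` commutes with its range,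
every star homomorphism from `M_n(ℂ) ⊗ M`, `n ≥ 2`, to `M^U` is zero, and for no `t > 1` the
amplification `M^t` has a unital star homomorphism to `M^U`.
-/

set_option autoImplicit false

namespace Pool.Agent.Results.MP_b7fcbd_an.AllHomomorphisms

open Pool.Agent.Helper278 Pool.Agent.Helper278.RG
open scoped BoundedContinuousFunction

universe u

/-- For every nonprincipal ultrafilter `U` on `ℕ` and every nonzero star homomorphism `f` from `M`
to the tracial ultrapower `M^U`, the only projections of `M^U` which commute with all `f x` are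
`0` and `1`. -/
def RangesIrreducible {M : Type u} [NormedRing M] [StarRing M] [CStarRing M]
    [NormedAlgebra ℂ M] [StarModule ℂ M] (τ : M → ℂ) : Prop :=
  ∀ U : Ultrafilter ℕ, (∀ n, {n} ∉ U) → ∀ (Q : Type u) [Ring Q] [StarRing Q] [Algebra ℂ Q]
    [StarModule ℂ Q] (π : (ℕ →ᵇ M) →⋆ₐ[ℂ] Q) (σ : Q → ℂ), IsTracialUltrapower τ U π σ →
    ∀ f : M →⋆ₙₐ[ℂ] Q, f 1 ≠ 0 → ∀ q : Q, IsStarProjection q → (∀ x, f x * q = q * f x) →
      q = 0 ∨ q = 1

/-- For every nonprincipal ultrafilter `U` on `ℕ` and every `n ≥ 2`, every star homomorphism,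
unital or not, from the algebra of `n × n` matrices over `M` to the tracial ultrapower `M^U` is
zero. -/
def MatrixHomsZero {M : Type u} [NormedRing M] [StarRing M] [CStarRing M]
    [NormedAlgebra ℂ M] [StarModule ℂ M] (τ : M → ℂ) : Prop :=
  ∀ U : Ultrafilter ℕ, (∀ n, {n} ∉ U) → ∀ (Q : Type u) [Ring Q] [StarRing Q] [Algebra ℂ Q]
    [StarModule ℂ Q] (π : (ℕ →ᵇ M) →⋆ₐ[ℂ] Q) (σ : Q → ℂ), IsTracialUltrapower τ U π σ →
    ∀ n : ℕ, 2 ≤ n → ∀ Φ : Matrix (Fin n) (Fin n) M →⋆ₙₐ[ℂ] Q, ∀ X, Φ X = 0

/-- The trace `τ` on the star algebra `M` has all the properties of the theorem: the ultrapowers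
exist; there are unitaries `e x`, `x ∈ X`, that are orthogonal for the trace; every nonzero star
homomorphism `M → M^U` is unital; its range commutes with no projection other than `0` and `1`;
every star homomorphism `M_n(M) → M^U` with `n ≥ 2` is zero; and no amplification `M^t` with `t > 1`
has a unital star homomorphism to `M^U`. -/
def IsRigid {M : Type u} [NormedRing M] [StarRing M] [CStarRing M]
    [NormedAlgebra ℂ M] [StarModule ℂ M] (X : Type) (τ : M → ℂ) : Prop :=
  UltrapowersExist τ ∧
    (∃ e : X → M, (∀ x, star (e x) * e x = 1 ∧ e x * star (e x) = 1) ∧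
      ∀ x y, x ≠ y → τ (star (e x) * e y) = 0) ∧
    HomsUnital τ ∧ RangesIrreducible τ ∧ MatrixHomsZero τ ∧ NoAmplificationEmbeds τ

/-- For every set `X` there is a II₁ factor `M` with a family of unitaries, orthogonal for the
trace and indexed by `X`, such that for every nonprincipal ultrafilter `U` on `ℕ` every nonzero
star homomorphism `M → M^U` is unital, its range commutes with no projection other than `0` and
`1`, every star homomorphism `M_n(M) → M^U` with `n ≥ 2` is zero, and no amplification `M^t` with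
`t > 1` has a unital star homomorphism to `M^U`. -/
theorem result (X : Type) :
    ∃ (H : Type) (_ : NormedAddCommGroup H) (_ : InnerProductSpace ℂ H) (_ : CompleteSpace H)
      (M : VonNeumannAlgebra H) (τ : Elt M → ℂ), IsIIOneFactor M τ ∧ IsRigid (M := Elt M) X τ := by
  have b : HilbertBasis (Gp (ends (Pool.Agent.Y671.HU.J1 X) (Pool.Agent.Y671.HU.J2 X))) ℂ
    (lp (fun _ : Gp (ends (Pool.Agent.Y671.HU.J1 X) (Pool.Agent.Y671.HU.J2 X)) => ℂ) 2) := default
  have hu := Pool.Agent.Y671.HU.homsUnitalg b (Pool.Agent.Y671.HU.cJ1 X)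
    (Pool.Agent.Y671.HU.cJ2 X)
  refine ⟨lp (fun _ : Gp (ends (Pool.Agent.Y671.HU.J1 X) (Pool.Agent.Y671.HU.J2 X)) => ℂ) 2,
    inferInstance, inferInstance, inferInstance, LK b, (TL b).τ,
    Pool.Agent.Y671.HU.factorg b, fun U _ => exists_ultrapower (TL b) U,
    ⟨fun x => La b (Pool.Agent.Y671.HU.emb X x), fun x => ⟨Pool.Agent.Y671.HU.La_unit b _,
      Pool.Agent.Y671.HU.La_unit' b _⟩, fun x y hxy => Pool.Agent.Y671.HU.La_orth b _ _
        (fun h => hxy (Pool.Agent.Y671.HU.emb_injective X h))⟩, hu, ?_, ?_, ?_⟩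
  · intro U hU Q _ _ _ _ π σ hπ f hf q hq hc
    exact Pool.Agent.Y671.HU.comm_proj hu hU hπ f hf hq hc
  · intro U hU Q _ _ _ _ π σ hπ n hn Φ Y
    exact Pool.Agent.Y671.HU.matrix_zero hu hU hπ hn Φ Y
  · exact noAmp_of_homsUnital (TL b) (Pool.Agent.Y671.HU.lyapg b)
      (Pool.Agent.Y671.HU.factorg b).center hu

end Pool.Agent.Results.MP_b7fcbd_an.AllHomomorphisms
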